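import Mathlib
import Pool.Agent.H71R3.TF2

/-!
# Thomas-Fermi energies decrease under stretchings

One-directional expansions in any direction, isometries, translations, and their compositions,
among them all linear maps which do not decrease the length of any vector. The main tool is
`contraction_one` of the starting library (helper71).
-/

set_option autoImplicit false

open MeasureTheory Set Filter Topology Metric
open scoped RealInnerProductSpace BigOperators ENNReal

namespace Pool.Agent.Y16.TF

open Pool.Agent.Helper557.TFP Pool.Agent.H71R3.TF1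

/-- the stretching with profile `φ` in the direction `n` -/
noncomputable def str (n : E3) (φ : ℝ → ℝ) (x : E3) : E3 := x + φ (inner ℝ n x) • n

lemma inner_str {n : E3} (hn : ‖n‖ = 1) (φ : ℝ → ℝ) (x : E3) :
    (inner ℝ n (str n φ x) : ℝ) = inner ℝ n x + φ (inner ℝ n x) := by
  unfold str
  rw [inner_add_right, inner_smul_right, real_inner_self_eq_norm_sq, hn]
  ring

lemma str_inj {n : E3} (hn : ‖n‖ = 1) {φ : ℝ → ℝ} (hφ : Monotone φ) :
    Function.Injective (str n φ) := by
  intro x y h
  have h1 : (inner ℝ n x : ℝ) + φ (inner ℝ n x) = inner ℝ n y + φ (inner ℝ n y) := by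
    rw [← inner_str hn, ← inner_str hn, h]
  have h2 : (inner ℝ n x : ℝ) = inner ℝ n y := by
    rcases lt_trichotomy (inner ℝ n x : ℝ) (inner ℝ n y) with h3 | h3 | h3
    · have := hφ h3.le; linarith
    · exact h3
    · have := hφ h3.le; linarith
  unfold str at h
  rw [h2] at h
  exact add_right_cancel h

/-- **Stretching in one direction lowers the energy.** -/
theorem en_str {n : E3} (hn : ‖n‖ = 1) {φ : ℝ → ℝ} (hφ : Monotone φ) {k : ℕ} (z : Fin k → ℝ)
    (hz : ∀ j, 0 ≤ z j) (R : Fin k → E3) (hR : Function.Injective R) (lam : ℝ) (hlam : 0 ≤ lam) :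
    en z (fun i => str n φ (R i)) lam ≤ en z R lam := by
  obtain ⟨A, hA⟩ := exists_iso n hn
  rw [← en_iso A z (fun i => str n φ (R i)), ← en_iso A z R]
  have hcoord : ∀ x : E3, (A x) 2 = (inner ℝ n x) := by
    intro x
    rw [← A.inner_map_map n x, hA, EuclideanSpace.inner_single_left]
    simp
  -- the inverse of `s ↦ s + φ s` on its range is monotone and 1-Lipschitz; extend it
  set S : Set ℝ := Set.range fun i => (inner ℝ n (R i) : ℝ) with hS
  -- a 1-Lipschitz monotone extension of the inverse
  obtain ⟨g, hg, hgS⟩ : ∃ g : ℝ → ℝ, (∀ s t, s ≤ t → g s ≤ g t ∧ g t - g s ≤ t - s) ∧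
      ∀ s, g (s + φ s) = s := by
    refine ⟨fun t => sSup {s | s + φ s ≤ t}, ?_, ?_⟩
    · have hne : ∀ t : ℝ, {s : ℝ | s + φ s ≤ t}.Nonempty := by
        intro t
        refine ⟨min 0 (t - φ 0), ?_⟩
        show min 0 (t - φ 0) + φ (min 0 (t - φ 0)) ≤ t
        have h1 : φ (min 0 (t - φ 0)) ≤ φ 0 := hφ (min_le_left _ _)
        have h2 := min_le_right 0 (t - φ 0)
        linarith
      have hbd : ∀ t : ℝ, BddAbove {s : ℝ | s + φ s ≤ t} := by
        intro t
        refine ⟨max 0 (t - φ 0), ?_⟩
        intro s hs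
        have hs' : s + φ s ≤ t := hs
        by_cases h0 : s ≤ 0
        · exact h0.trans (le_max_left _ _)
        · have h1 : φ 0 ≤ φ s := hφ (by linarith)
          exact (by linarith : s ≤ t - φ 0).trans (le_max_right _ _)
      intro s t hst
      constructor
      · exact csSup_le_csSup (hbd t) (hne s) (fun x hx => le_trans hx hst)
      · rw [sub_le_iff_le_add]
        apply csSup_le (hne t)
        intro x hx
        have hx' : x + φ x ≤ t := hx
        have h1 : x - (t - s) ∈ {r : ℝ | r + φ r ≤ s} := by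
          show x - (t - s) + φ (x - (t - s)) ≤ s
          have h2 : φ (x - (t - s)) ≤ φ x := hφ (by linarith)
          linarith
        have h3 := le_csSup (hbd s) h1
        linarith
    · intro s
      have hmem : s ∈ {r : ℝ | r + φ r ≤ s + φ s} := le_refl (s + φ s)
      show sSup {r : ℝ | r + φ r ≤ s + φ s} = s
      apply le_antisymm
      · apply csSup_le ⟨s, hmem⟩
        intro r hr
        have hr' : r + φ r ≤ s + φ s := hr
        by_contra hc
        have h1 : φ s ≤ φ r := hφ (not_le.1 hc).le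
        linarith [not_le.1 hc]
      · apply le_csSup
        · refine ⟨s, fun r hr => ?_⟩
          have hr' : r + φ r ≤ s + φ s := hr
          by_contra hc
          have h1 : φ s ≤ φ r := hφ (not_le.1 hc).le
          linarith [not_le.1 hc]
        · exact hmem
  have e : (fun i => A (R i)) = fun i => mv 2 g (A (str n φ (R i))) := by
    funext i
    ext b
    by_cases hb : b = 2
    · subst hb
      rw [mv_same, hcoord, hcoord, inner_str hn, hgS]
    · rw [mv_ne 2 b hb]
      unfold str
      rw [map_add, map_smul, hA]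
      simp [hb]
  have hinj1 : Function.Injective (fun i => A (str n φ (R i))) :=
    A.injective.comp ((str_inj hn hφ).comp hR)
  have hinj2 : Function.Injective (fun i => A (R i)) := A.injective.comp hR
  rw [e]
  refine contraction_one z hz _ hinj1 lam hlam 2 g hg ?_
  rw [← e]
  exact hinj2

/-- translations do not change the energy -/
theorem en_trans (v : E3) {k : ℕ} (z : Fin k → ℝ) (hz : ∀ j, 0 ≤ z j) (R : Fin k → E3)
    (hR : Function.Injective R) (lam : ℝ) (hlam : 0 ≤ lam) :
    en z (fun i => R i + v) lam ≤ en z R lam := by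
  by_cases hv : v = 0
  · simp [hv]
  have hn : ‖(‖v‖⁻¹ • v)‖ = 1 := by
    rw [norm_smul, norm_inv, norm_norm, inv_mul_cancel₀ (norm_ne_zero_iff.2 hv)]
  have h := en_str hn (φ := fun _ => ‖v‖) monotone_const z hz R hR lam hlam
  have e : (fun i => str (‖v‖⁻¹ • v) (fun _ => ‖v‖) (R i)) = fun i => R i + v := by
    funext i
    unfold str
    rw [smul_smul, mul_inv_cancel₀ (norm_ne_zero_iff.2 hv), one_smul]
  rw [e] at h
  exact h

/-- one step: an isometry or a stretching in one direction -/
def Step {k : ℕ} (R R' : Fin k → E3) : Prop :=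
  (∃ A : E3 ≃ₗᵢ[ℝ] E3, ∀ i, R' i = A (R i)) ∨
    ∃ (n : E3) (φ : ℝ → ℝ), ‖n‖ = 1 ∧ Monotone φ ∧ ∀ i, R' i = R i + φ (inner ℝ n (R i)) • n

/-- finitely many steps -/
def Stretched {k : ℕ} (R R' : Fin k → E3) : Prop := Relation.ReflTransGen Step R R'

lemma Step.inj {k : ℕ} {R R' : Fin k → E3} (h : Step R R') (hR : Function.Injective R) :
    Function.Injective R' := by
  rcases h with ⟨A, hA⟩ | ⟨n, φ, hn, hφ, h⟩
  · have : R' = fun i => A (R i) := funext hA
    rw [this]
    exact A.injective.comp hR
  · have : R' = fun i => str n φ (R i) := funext h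
    rw [this]
    exact (str_inj hn hφ).comp hR

lemma Step.en_le {k : ℕ} {R R' : Fin k → E3} (h : Step R R') (hR : Function.Injective R)
    (z : Fin k → ℝ) (hz : ∀ j, 0 ≤ z j) (lam : ℝ) (hlam : 0 ≤ lam) : en z R' lam ≤ en z R lam := by
  rcases h with ⟨A, hA⟩ | ⟨n, φ, hn, hφ, h⟩
  · have : R' = fun i => A (R i) := funext hA
    rw [this, en_iso]
  · have : R' = fun i => str n φ (R i) := funext h
    rw [this]
    exact en_str hn hφ z hz R hR lam hlam

theorem Stretched.en_le {k : ℕ} {R R' : Fin k → E3} (h : Stretched R R')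
    (hR : Function.Injective R) (z : Fin k → ℝ) (hz : ∀ j, 0 ≤ z j) (lam : ℝ) (hlam : 0 ≤ lam) :
    Function.Injective R' ∧ en z R' lam ≤ en z R lam := by
  induction h with
  | refl => exact ⟨hR, le_rfl⟩
  | tail _ h2 ih => exact ⟨h2.inj ih.1, (h2.en_le ih.1 z hz lam hlam).trans ih.2⟩

/-! ### expanding linear maps -/

/-- dilation by the factor `1 + c` in the direction `n` -/
lemma step_dil {k : ℕ} (R : Fin k → E3) {n : E3} (hn : ‖n‖ = 1) {c : ℝ} (hc : 0 ≤ c) :
    Step R (fun i => R i + (c * inner ℝ n (R i)) • n) :=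
  Or.inr ⟨n, fun t => c * t, hn, fun _ _ h => mul_le_mul_of_nonneg_left h hc, fun _ => rfl⟩

/-- **All linear maps which do not decrease lengths are stretchings.** -/
theorem stretched_linear {k : ℕ} (R : Fin k → E3) (T : E3 →ₗ[ℝ] E3) (hT : ∀ x, ‖x‖ ≤ ‖T x‖) :
    Stretched R (fun i => T (R i)) := by
  classical
  -- the symmetric operator `T* T`
  set P : E3 →ₗ[ℝ] E3 := (LinearMap.adjoint T) ∘ₗ T with hP
  have hsym : P.IsSymmetric := by
    intro x y
    rw [hP, LinearMap.comp_apply, LinearMap.comp_apply, LinearMap.adjoint_inner_left,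
      LinearMap.adjoint_inner_right]
  have hfr : Module.finrank ℝ E3 = 3 := by simp [E3]
  set b := hsym.eigenvectorBasis hfr with hb
  set μ := hsym.eigenvalues hfr with hμ
  have hTb : ∀ i j, (inner ℝ (T (b i)) (T (b j)) : ℝ) = if i = j then μ i else 0 := by
    intro i j
    have h1 : (inner ℝ (T (b i)) (T (b j)) : ℝ) = inner ℝ (P (b i)) (b j) := by
      rw [hP, LinearMap.comp_apply, LinearMap.adjoint_inner_left]
    rw [h1, hsym.apply_eigenvectorBasis hfr i]
    rw [RCLike.ofReal_real_eq_id, id, inner_smul_left]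
    have h2 := (orthonormal_iff_ite.1 b.orthonormal) i j
    rw [← hb, h2]
    split_ifs <;> simp [hμ]
  have hμ1 : ∀ i, 1 ≤ μ i := by
    intro i
    have h1 := hTb i i
    rw [if_pos rfl, real_inner_self_eq_norm_sq] at h1
    have h2 := hT (b i)
    rw [b.norm_eq_one] at h2
    rw [← h1]
    nlinarith
  -- singular values
  set s : Fin 3 → ℝ := fun i => Real.sqrt (μ i) with hs
  have hs1 : ∀ i, 1 ≤ s i := fun i => by
    rw [hs]
    exact Real.one_le_sqrt.2 (hμ1 i)
  have hs0 : ∀ i, s i ≠ 0 := fun i => by have := hs1 i; positivity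
  have hss : ∀ i, s i * s i = μ i := fun i => Real.mul_self_sqrt (by linarith [hμ1 i])
  -- the dilated points
  have hstep : ∀ (Q : Fin k → E3) (a : Fin 3), Step Q
      (fun i => Q i + ((s a - 1) * inner ℝ (b a) (Q i)) • b a) := fun Q a =>
    step_dil Q (b.norm_eq_one a) (by linarith [hs1 a])
  set Q1 : Fin k → E3 := fun i => R i + ((s 0 - 1) * inner ℝ (b 0) (R i)) • b 0 with hQ1
  set Q2 : Fin k → E3 := fun i => Q1 i + ((s 1 - 1) * inner ℝ (b 1) (Q1 i)) • b 1 with hQ2
  set Q3 : Fin k → E3 := fun i => Q2 i + ((s 2 - 1) * inner ℝ (b 2) (Q2 i)) • b 2 with hQ3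
  -- coordinates of the dilated points
  have ho : ∀ i j, (inner ℝ (b i) (b j) : ℝ) = if i = j then 1 else 0 := fun i j =>
    (orthonormal_iff_ite.1 b.orthonormal) i j
  have hc : ∀ i a, (inner ℝ (b a) (Q3 i) : ℝ) = s a * inner ℝ (b a) (R i) := by
    intro i a
    fin_cases a <;>
    simp [hQ3, hQ2, hQ1, inner_add_right, inner_smul_right, ho] <;> ring
  -- the isometry
  have hon : Orthonormal ℝ (fun i => (s i)⁻¹ • T (b i)) := by
    rw [orthonormal_iff_ite]
    intro i j
    rw [inner_smul_left, inner_smul_right, hTb]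
    by_cases h : i = j
    · subst h
      rw [if_pos rfl, if_pos rfl, ← hss i]
      have := hs0 i
      simp
      field_simp
    · rw [if_neg h, if_neg h]
      simp
  set b' : OrthonormalBasis (Fin 3) ℝ E3 := OrthonormalBasis.mk hon (by
    have hli := hon.linearIndependent
    have := hli.span_eq_top_of_card_eq_finrank (by simp [hfr])
    rw [this]) with hb'
  set A : E3 ≃ₗᵢ[ℝ] E3 := b.equiv b' (Equiv.refl _) with hA
  have hAb : ∀ a, A (b a) = (s a)⁻¹ • T (b a) := by
    intro a
    rw [hA, OrthonormalBasis.equiv_apply_basis, hb']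
    simp
  have hfin : ∀ i, T (R i) = A (Q3 i) := by
    intro i
    have h1 : Q3 i = ∑ a, (inner ℝ (b a) (Q3 i) : ℝ) • b a := (b.sum_repr' (Q3 i)).symm
    have h2 : R i = ∑ a, (inner ℝ (b a) (R i) : ℝ) • b a := (b.sum_repr' (R i)).symm
    rw [h1]
    conv_lhs => rw [h2]
    rw [map_sum, map_sum]
    refine Finset.sum_congr rfl fun a _ => ?_
    rw [map_smul, map_smul, hAb, hc, smul_smul]
    congr 1
    have := hs0 a
    field_simp
  refine Relation.ReflTransGen.tail (Relation.ReflTransGen.tail (Relation.ReflTransGen.tail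
    (Relation.ReflTransGen.single (hstep R 0)) (hstep Q1 1)) (hstep Q2 2)) ?_
  exact Or.inl ⟨A, hfin⟩

end Pool.Agent.Y16.TF
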